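import Pool.Agent.H64.BranchDefs
import Pool.Agent.H64.Branch3

set_option autoImplicit false

namespace Pool.Agent.Results.MP_9e467c_al.Counter

open Pool.Agent.H64.Branch

/-- A finitely generated branch group with a branch subgroup of infinite index all of whose
maximal overgroups have finite index. -/
theorem result : ∃ G H : Subgroup (Equiv.Perm (List (Fin 5))),
    G.FG ∧ IsBranch G ∧ H ≤ G ∧ IsBranch H ∧ H.relIndex G = 0 ∧
      ∀ M, H ≤ M → M ⋖ G → M.relIndex G ≠ 0 :=
  Pool.Agent.H64.Branch.main

end Pool.Agent.Results.MP_9e467c_al.Counter
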